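import Mathlib

/-!
# Cross-intersecting pairs of projective subspaces

We prove that every (skew) cross-intersecting sequence of `m` pairs of nonempty projective
subspaces of an `n`-dimensional projective space over an arbitrary field satisfies
`m ≤ 2 ^ (n + 1) - 2`.

Proof: to the linear subspace `U` attach the wedge `w(U)` of a basis of `U` in the exterior
algebra of `F ^ (n + 1)`. Then `w(U) * w(V)` is nonzero if `U ⊓ V = ⊥` and is zero otherwise.
Hence the elements `w(U_i)` of a skew system are linearly independent, so there are at most
`2 ^ (n + 1)` of them, even when zero subspaces are allowed. If no subspace of the system is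
zero, then the pair `(⊤, ⊥)` can be put in front and the pair `(⊥, ⊤)` at the end.
-/

namespace Pool.Agent.Results.MP_59f694_co.ProjectiveBound

open Module

variable {F : Type*} [Field F] {E : Type*} [AddCommGroup E] [Module F E]

/-- The wedge product, in the exterior algebra of `E`, of the vectors of a chosen basis of a
finite-dimensional subspace `U` of `E`. -/
noncomputable def wedge [FiniteDimensional F E] (U : Submodule F E) : ExteriorAlgebra F E :=
  ExteriorAlgebra.ιMulti F (finrank F U) (fun k => (finBasis F U k : E))

/-- The wedge of a linearly independent family of vectors is nonzero. -/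
theorem iotaMulti_ne_zero {d : ℕ} {v : Fin d → E} (hv : LinearIndependent F v) :
    ExteriorAlgebra.ιMulti F d v ≠ 0 := by
  have h := exteriorPower.ιMulti_family_linearIndependent_field (K := F) d hv
  let s : Set.powersetCard (Fin d) d := ⟨Finset.univ, by simp [Set.powersetCard]⟩
  have hs := h.ne_zero s
  intro h0
  apply hs
  have hid : v ∘ ⇑(Set.powersetCard.ofFinEmbEquiv.symm s) = v := by
    have : ∀ k, (Set.powersetCard.ofFinEmbEquiv.symm s) k = k := by
      intro k
      have h1 : StrictMono ⇑(Set.powersetCard.ofFinEmbEquiv.symm s) :=
        (Set.powersetCard.ofFinEmbEquiv.symm s).strictMono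
      exact congrFun (h1.range_inj strictMono_id |>.1 (by
        have h2 := (Finite.injective_iff_surjective.1 h1.injective).range_eq
        rw [h2]; simp)) k
    funext k
    simp [this k]
  apply Subtype.ext
  rw [exteriorPower.ιMulti_family, exteriorPower.ιMulti_apply_coe, hid, h0]
  rfl

/-- Reindexing of an appended family as a family indexed by a sum type. -/
theorem append_eq {α : Type*} {a b : ℕ} (x : Fin a → α) (y : Fin b → α) :
    Fin.append x y ∘ finSumFinEquiv = Sum.elim x y := by
  funext i
  rcases i with i | i <;> simp

theorem wedge_mul_ne_zero [FiniteDimensional F E] {U V : Submodule F E} (h : U ⊓ V = ⊥) :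
    wedge U * wedge V ≠ 0 := by
  unfold wedge
  rw [ExteriorAlgebra.ιMulti_mul_ιMulti]
  apply iotaMulti_ne_zero
  have hU : LinearIndependent F (fun k => (finBasis F U k : E)) :=
    (finBasis F U).linearIndependent.map' U.subtype (Submodule.ker_subtype U)
  have hV : LinearIndependent F (fun k => (finBasis F V k : E)) :=
    (finBasis F V).linearIndependent.map' V.subtype (Submodule.ker_subtype V)
  rw [← linearIndependent_equiv finSumFinEquiv, append_eq]
  refine hU.sum_type hV ?_
  refine Disjoint.mono ?_ ?_ (disjoint_iff.2 h)
  · rw [Submodule.span_le]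
    rintro _ ⟨k, rfl⟩
    exact (finBasis F U k).2
  · rw [Submodule.span_le]
    rintro _ ⟨k, rfl⟩
    exact (finBasis F V k).2

/-- The span in `E` of the chosen basis of `U` is `U`. -/
theorem span_finBasis [FiniteDimensional F E] (U : Submodule F E) :
    Submodule.span F (Set.range (fun k => (finBasis F U k : E))) = U := by
  have h1 : Set.range (fun k => (finBasis F U k : E)) =
      U.subtype '' Set.range (finBasis F U) := by
    rw [← Set.range_comp]; rfl
  rw [h1, ← Submodule.map_span, (finBasis F U).span_eq, Submodule.map_subtype_top]

theorem wedge_mul_eq_zero [FiniteDimensional F E] {U V : Submodule F E} (h : U ⊓ V ≠ ⊥) :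
    wedge U * wedge V = 0 := by
  unfold wedge
  rw [ExteriorAlgebra.ιMulti_mul_ιMulti]
  apply AlternatingMap.map_linearDependent
  intro hli
  apply h
  rw [← linearIndependent_equiv finSumFinEquiv, append_eq, linearIndependent_sum] at hli
  have hd := hli.2.2
  have e1 : (Sum.elim (fun k => (finBasis F U k : E)) (fun k => (finBasis F V k : E))) ∘ Sum.inl
      = (fun k => (finBasis F U k : E)) := rfl
  have e2 : (Sum.elim (fun k => (finBasis F U k : E)) (fun k => (finBasis F V k : E))) ∘ Sum.inr
      = (fun k => (finBasis F V k : E)) := rfl
  rw [e1, e2, span_finBasis, span_finBasis] at hd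
  exact disjoint_iff.1 hd

/-- The dimension of the exterior algebra of a finite-dimensional space. -/
theorem finrank_exterior [FiniteDimensional F E] :
    Module.Finite F (ExteriorAlgebra F E) ∧
      finrank F (ExteriorAlgebra F E) = 2 ^ finrank F E := by
  let b := (finBasis F E).ExteriorAlgebra
  refine ⟨Module.Finite.of_basis b, ?_⟩
  rw [finrank_eq_card_basis b]
  simp

/-- The members of a skew system of pairs of subspaces of `E` (zero subspaces allowed) number at
most `2 ^ dim E`. -/
theorem card_le_of_skew [FiniteDimensional F E] {ι : Type*} [Fintype ι] [LinearOrder ι]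
    (U V : ι → Submodule F E) (hdisj : ∀ i, U i ⊓ V i = ⊥)
    (hint : ∀ i j, i < j → U i ⊓ V j ≠ ⊥) :
    Fintype.card ι ≤ 2 ^ finrank F E := by
  classical
  obtain ⟨hfin, hdim⟩ := finrank_exterior (F := F) (E := E)
  rw [← hdim]
  have hli : LinearIndependent F (fun i => wedge (U i)) := by
    rw [linearIndependent_iff']
    intro s g hg
    by_contra hcon
    push Not at hcon
    obtain ⟨i0, hi0, hgi0⟩ := hcon
    -- the largest index with a nonzero coefficient
    obtain ⟨j, hj, hmax⟩ := (s.filter (fun i => g i ≠ 0)).exists_max_image id
      ⟨i0, by simp [hi0, hgi0]⟩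
    rw [Finset.mem_filter] at hj
    have hmul := congrArg (fun z => z * wedge (V j)) hg
    simp only [zero_mul, Finset.sum_mul] at hmul
    rw [Finset.sum_eq_single j] at hmul
    · rw [smul_mul_assoc] at hmul
      rcases smul_eq_zero.1 hmul with h | h
      · exact hj.2 h
      · exact wedge_mul_ne_zero (hdisj j) h
    · intro i hi hij
      by_cases hgi : g i = 0
      · simp [hgi]
      · have hle : i ≤ j := hmax i (by simp [hi, hgi])
        rw [smul_mul_assoc, wedge_mul_eq_zero (hint i j (lt_of_le_of_ne hle hij)), smul_zero]
    · intro h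
      exact absurd hj.1 h
  exact hli.fintype_card_le_finrank

/-- **Main theorem, linear form.** -/
theorem card_le_of_skew_ne_bot [FiniteDimensional F E] {m : ℕ}
    (U V : Fin m → Submodule F E) (hU : ∀ i, U i ≠ ⊥) (hV : ∀ i, V i ≠ ⊥)
    (hdisj : ∀ i, U i ⊓ V i = ⊥) (hint : ∀ i j, i < j → U i ⊓ V j ≠ ⊥)
    (hE : (⊤ : Submodule F E) ≠ ⊥) :
    m ≤ 2 ^ finrank F E - 2 := by
  let U' : WithBot (WithTop (Fin m)) → Submodule F E :=
    fun x => WithBot.recBotCoe ⊤ (fun y => WithTop.recTopCoe ⊥ U y) x
  let V' : WithBot (WithTop (Fin m)) → Submodule F E :=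
    fun x => WithBot.recBotCoe ⊥ (fun y => WithTop.recTopCoe ⊤ V y) x
  have key := card_le_of_skew U' V' ?_ ?_
  · have hc : Fintype.card (WithBot (WithTop (Fin m))) = m + 2 := by
      change Fintype.card (Option (Option (Fin m))) = m + 2
      simp
    omega
  · intro x
    induction x with
    | bot => exact inf_bot_eq _
    | coe y =>
      induction y with
      | top => exact bot_inf_eq _
      | coe i => exact hdisj i
  · intro x y hxy
    induction y with
    | bot => exact absurd hxy (by simp)
    | coe y =>
      induction x with
      | bot =>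
        induction y with
        | top => exact fun h => hE ((inf_top_eq _).symm.trans h)
        | coe j => exact fun h => hV j ((top_inf_eq _).symm.trans h)
      | coe x =>
        rw [WithBot.coe_lt_coe] at hxy
        induction x with
        | top => exact absurd hxy (by simp)
        | coe i =>
          induction y with
          | top => exact fun h => hU i ((inf_top_eq _).symm.trans h)
          | coe j => exact hint i j (WithTop.coe_lt_coe.1 hxy)

open scoped LinearAlgebra.Projectivization in
/-- **Theorem.** Let `F` be an arbitrary field, let `n` and `m` be natural numbers, and let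
`(A i, B i)` for `i` in `Fin m` be a cross-intersecting sequence of pairs of nonempty projective
subspaces of the `n`-dimensional projective space over `F`: `A i ∩ B i = ∅` for every `i`, and
`A i ∩ B j ≠ ∅` whenever `i < j`. Then `m ≤ 2 ^ (n + 1) - 2`. -/
theorem result {F : Type*} [Field F] {n m : ℕ}
    (A B : Fin m → Projectivization.Subspace F (Fin (n + 1) → F))
    (hA : ∀ i, (A i : Set (ℙ F (Fin (n + 1) → F))).Nonempty)
    (hB : ∀ i, (B i : Set (ℙ F (Fin (n + 1) → F))).Nonempty)
    (hdisj : ∀ i, (A i : Set (ℙ F (Fin (n + 1) → F))) ∩ B i = ∅)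
    (hint : ∀ i j, i < j → ((A i : Set (ℙ F (Fin (n + 1) → F))) ∩ B j).Nonempty) :
    m ≤ 2 ^ (n + 1) - 2 := by
  have hbot : ∀ S : Projectivization.Subspace F (Fin (n + 1) → F),
      (S : Set (ℙ F (Fin (n + 1) → F))).Nonempty → Projectivization.Subspace.submodule S ≠ ⊥ := by
    intro S hS h
    have : S = ⊥ := by
      have h2 := congrArg Projectivization.Subspace.submodule.symm h
      simpa using h2
    rw [this, Projectivization.Subspace.bot_coe] at hS
    exact Set.not_nonempty_empty hS
  have key := card_le_of_skew_ne_bot (F := F) (E := Fin (n + 1) → F)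
    (fun i => Projectivization.Subspace.submodule (A i))
    (fun i => Projectivization.Subspace.submodule (B i))
    (fun i => hbot _ (hA i)) (fun i => hbot _ (hB i)) ?_ ?_ ?_
  · simpa using key
  · intro i
    rw [Submodule.eq_bot_iff]
    intro x hx
    by_contra hx0
    have h1 : Projectivization.mk F x hx0 ∈ A i :=
      (Projectivization.Subspace.mem_submodule_iff _ hx0).1 hx.1
    have h2 : Projectivization.mk F x hx0 ∈ B i :=
      (Projectivization.Subspace.mem_submodule_iff _ hx0).1 hx.2
    have h3 : Projectivization.mk F x hx0 ∈
        (A i : Set (ℙ F (Fin (n + 1) → F))) ∩ B i := ⟨h1, h2⟩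
    rw [hdisj i] at h3
    exact h3
  · intro i j hij h
    obtain ⟨p, hpA, hpB⟩ := hint i j hij
    induction p using Projectivization.ind with
    | h x hx0 =>
      have h1 := (Projectivization.Subspace.mem_submodule_iff _ hx0).2 hpA
      have h2 := (Projectivization.Subspace.mem_submodule_iff _ hx0).2 hpB
      exact hx0 ((Submodule.eq_bot_iff _).1 h x ⟨h1, h2⟩)
  · exact top_ne_bot

end Pool.Agent.Results.MP_59f694_co.ProjectiveBound
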